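import Pool.Agent.W8.KU.Stm

/-! Project KU: subtask KU-Hsc. -/

open scoped Topology ContDiff Pointwise
open MeasureTheory Metric

namespace Pool.Agent.W270.KU

open Pool.Agent.W8.KU

theorem Hsc_proof : Hsc := by
  intro z r hr
  have e1 : sphere z r = z +ᵥ (r • sphere (0 : E3) 1) := by
    rw [smul_sphere' hr.ne', vadd_sphere]
    simp [abs_of_pos hr]
  rw [e1, hausdorffMeasure_vadd z (Or.inl (by norm_num)),
    Measure.hausdorffMeasure_smul₀ (by norm_num) hr.ne']
  rw [ENNReal.smul_def, smul_eq_mul]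
  congr 1
  rw [ENNReal.ofReal, ENNReal.coe_inj]
  ext
  rw [Real.coe_toNNReal _ (by positivity)]
  push_cast
  rw [Real.norm_of_nonneg hr.le]
  norm_cast

end Pool.Agent.W270.KU
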